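import Pool.Agent.H5.BD.OUTP
import Pool.Agent.H5.BD.STEP
import Pool.Agent.H5.BD.COL
import Pool.Agent.H87.BD.COLD
import Pool.Agent.H87.BD.LFT
import Pool.Agent.H13.BD.COMP
import Pool.Agent.H13.BD.LEV
import Pool.Agent.H13.BD.PM
import Pool.Agent.H12.BD.SONE
import Pool.Agent.H12.BD.STWO
import Pool.Agent.H12.BD.STHR
import Pool.Agent.H12.BD.TYPA
import Pool.Agent.H12.BD.TYPB
import Pool.Agent.H48.BD.LFH
import Pool.Agent.H48.BD.LF
import Pool.Agent.H20.BD.ACY
import Pool.Agent.H20.BD.NST
import Pool.Agent.H20.BD.SEG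
import Pool.Agent.H20.BD.ML
import Pool.Agent.H20.BD.SW
import Pool.Agent.H20.BD.BD4
import Pool.Agent.H20.BD.IIT
import Pool.Agent.H22.BD.TYPC
import Pool.Agent.H22.BD.PL
import Pool.Agent.H7.BD.UPF
import Pool.Agent.H7.BD.PR
import Pool.Agent.H92.BD.PZ
import Pool.Agent.H24.BD.PARTS

/-!
# Blocks S and C assembled: theorem (II_T)
-/

set_option autoImplicit false

namespace Pool.BD

theorem colAll : COLStmt := col (cold (step outp))

theorem mlAll : MLStmt := ml acy nst

theorem segAll : SEGStmt := seg colAll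

theorem stwoAll : STWOStmt := stwo sone

theorem upfAll : UPFStmt := upf sone stwoAll (sthr stwoAll)

theorem typaAll : TYPAStmt := typa segAll mlAll

theorem typbAll : TYPBStmt := typb segAll mlAll

theorem typcAll : TYPCStmt := typc segAll mlAll colAll sw

theorem partsAll : PARTSStmt :=
  parts comp lev upfAll (lf lfh) lft (pz sone typaAll) (pm stwoAll upfAll typaAll)
    (pl stwoAll upfAll typbAll) (pr stwoAll upfAll typcAll)

/-- theorem (II_T) -/
theorem iitAll : IITStmt := iit partsAll bd4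

end Pool.BD
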