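import Mathlib

/-!
# Blocks S and C of the Boolean dimension project (MP_c9fc14_co, S11417)

The theorem wanted here is `IITStmt`.  Everything is elementary order combinatorics on `ℕ`.
-/

set_option autoImplicit false

namespace Pool.BD

/-! ## The theorem wanted -/

/-- Property (*): for two members `S`, `S'`, the difference `S \ S'` lies in one cyclic gap of `S'`. -/
def Star (F : Finset (Finset ℕ)) : Prop :=
  ∀ S ∈ F, ∀ S' ∈ F, ∀ x ∈ S, x ∉ S' → ∀ y ∈ S, y ∉ S' → x < y →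
    (∀ u ∈ S', ¬ (x < u ∧ u < y)) ∨ (∀ v ∈ S', ¬ (v < x ∨ y < v))

/-- The arcs `[c, r c]`, `c ∈ E`, are noncrossing. -/
def NonCr (E : Finset ℕ) (r : ℕ → ℕ) : Prop :=
  ∀ c ∈ E, ∀ c' ∈ E, c < c' → c' ≤ r c → r c' ≤ r c

/-- Theorem (II_T). -/
def IITStmt : Prop :=
  ∃ (K : ℕ) (φ : (Fin K → Prop) → Prop), ∀ (I : Type) [Finite I] (C : I → Finset ℕ) (r : ℕ → ℕ) (N : ℕ),
    (∀ a, (C a).Nonempty) →
    (∀ a h, ∀ x ∈ C a, x ∉ C h → ∀ y ∈ C a, y ∉ C h → x < y →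
      (∀ u ∈ C h, ¬ (x < u ∧ u < y)) ∨ (∀ v ∈ C h, ¬ (v < x ∨ y < v))) →
    (∀ a, ∀ c ∈ C a, c ≤ r c) →
    (∀ a h, ∀ c ∈ C a, ∀ c' ∈ C h, c < c' → c' ≤ r c → r c' ≤ r c) →
    ∃ (α : Fin K → I → ℕ) (β : Fin K → ℕ → ℕ), ∀ a, ∀ b < N,
      ((∃ c ∈ C a, c ≤ b ∧ b ≤ r c) ↔ φ (fun j => α j a < β j b))

/-! ## Block C: colouring -/

/-- C1. Noncrossing pairs on a bounded segment of `ℕ`: 3 colours (outerplanar graphs). -/
def OUTPStmt : Prop :=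
  ∀ (P : ℕ → ℕ → Prop) (N : ℕ),
    (∀ i j, P i j → i < j ∧ j ≤ N) →
    (∀ i j i' j', P i j → P i' j' → i < i' → i' < j → j < j' → False) →
    ∃ k : ℕ → Fin 3, ∀ i j, P i j → k i ≠ k j

/-- Items with distinct endpoints: `s < t < r`, all values distinct, `[s,t]` noncrossing,
`[t,r]` noncrossing. -/
structure Items (ι : Type) (s t r : ι → ℕ) : Prop where
  st : ∀ i, s i < t i
  tr : ∀ i, t i < r i
  sinj : Function.Injective s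
  tinj : Function.Injective t
  rinj : Function.Injective r
  nst : ∀ i j, s i ≠ t j
  nsr : ∀ i j, s i ≠ r j
  ntr : ∀ i j, t i ≠ r j
  U : ∀ i j, s i < s j → s j < t i → t i < t j → False
  V : ∀ i j, t i < t j → t j < r i → r i < r j → False

/-- C2. One step of the colouring.  `W` = level `n`, `Z` = level `n+1` (sets of items), `e` = the set of
endpoints of the previous levels. -/
def STEPStmt : Prop :=
  ∀ (ι : Type) [Finite ι] (s t r : ι → ℕ), Items ι s t r → ∀ (W Z : Set ι) (e : Set ℕ),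
    -- every item of `W` has a point of `e` inside (points of `e` are not `t`-points of `W`)
    (∀ w ∈ W, (∃ p ∈ e, s w < p ∧ p < t w) ∨ (∃ p ∈ e, t w < p ∧ p < r w)) →
    -- no item of `Z` has a point of `e` inside
    (∀ z ∈ Z, ∀ p ∈ e, ¬ (s z < p ∧ p < r z)) →
    -- every item of `Z` overlaps an item of `W`
    (∀ z ∈ Z, ∃ w ∈ W, (s z < s w ∧ s w < r z ∧ r z < r w) ∨ (s w < s z ∧ s z < r w ∧ r w < r z)) →
    ∃ col : ι → Fin 3 × Fin 3 × Fin 3 × Fin 2, ∀ x ∈ Z, ∀ y ∈ Z,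
      t x < s y → s y < r x → r x < t y → col x ≠ col y

/-- C3. Distinct endpoints: 108 colours. -/
def COLDStmt : Prop :=
  ∀ (ι : Type) [Finite ι] (s t r : ι → ℕ), Items ι s t r →
    ∃ col : ι → Fin 108, ∀ x y, t x < s y → s y < r x → r x < t y → col x ≠ col y

/-- C4. The colouring theorem in the form used: 108 colours. -/
def COLStmt : Prop :=
  ∀ (ι : Type) [Finite ι] (s t r : ι → ℕ), Function.Injective t →
    (∀ i, s i ≤ t i) → (∀ i, t i ≤ r i) →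
    (∀ i j, t i < t j → s i < s j → s j ≤ t i → False) →
    (∀ i j, t i < t j → t j ≤ r i → r j ≤ r i) →
    ∃ col : ι → Fin 108, ∀ i j, t i < s j → s j ≤ r i → r i < t j → col i ≠ col j

/-! ## Block S: families with property (*) -/

/-- S0. Completion: consecutive rungs form members. -/
def COMPStmt : Prop :=
  ∀ (F : Finset (Finset ℕ)), F.Nonempty → (∀ S ∈ F, S.Nonempty) → Star F →
    ∃ F' : Finset (Finset ℕ), F ⊆ F' ∧ (∀ S ∈ F', S.Nonempty) ∧ Star F' ∧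
      F'.biUnion id = F.biUnion id ∧
      ∀ c ∈ F'.biUnion id, ∀ c' ∈ F'.biUnion id, c < c' →
        (∀ e ∈ F'.biUnion id, ¬ (c < e ∧ e < c')) → {c, c'} ∈ F'

/-- Level function of a family. -/
structure Lev (F : Finset (Finset ℕ)) (lev : ℕ → ℕ) : Prop where
  one : ∀ S ∈ F, ∀ c ∈ S, ∀ c' ∈ S, lev c' ≤ lev c + 1
  pred : ∀ S₀ ∈ F, ∀ c ∈ S₀, lev c ≠ 0 → ∃ S ∈ F, c ∈ S ∧ ∃ c' ∈ S, lev c' + 1 = lev c
  zero : ∀ S₀ ∈ F, ∀ c ∈ S₀, lev c = 0 → ∀ S ∈ F, ∀ e ∈ S, c ≤ e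

/-- S1a. Existence of levels. -/
def LEVStmt : Prop :=
  ∀ (F : Finset (Finset ℕ)), (∀ S ∈ F, S.Nonempty) →
    (∀ c ∈ F.biUnion id, ∀ c' ∈ F.biUnion id, c < c' →
        (∀ e ∈ F.biUnion id, ¬ (c < e ∧ e < c')) → {c, c'} ∈ F) →
    ∃ lev : ℕ → ℕ, Lev F lev

/-- S1b. Fact (s1). -/
def SONEStmt : Prop :=
  ∀ (F : Finset (Finset ℕ)) (lev : ℕ → ℕ), Star F → Lev F lev →
    ∀ (k : ℕ), ∀ S ∈ F, (∀ c ∈ S, k ≤ lev c) → ∀ S₀ ∈ F, ∀ e ∈ S₀,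
      (∃ x ∈ S, x ≤ e) → (∃ y ∈ S, e ≤ y) → ¬ lev e < k ∧ (lev e = k → e ∈ S)

/-- S1c. Fact (s2). -/
def STWOStmt : Prop :=
  ∀ (F : Finset (Finset ℕ)) (lev : ℕ → ℕ), Star F → Lev F lev →
    ∀ (k : ℕ), ∀ S ∈ F, (∀ c ∈ S, k ≤ lev c) →
      ∀ c₁ ∈ S, ∀ c₂ ∈ S, lev c₁ = k + 1 → lev c₂ = k + 1 → ∀ S₀ ∈ F, ∀ e ∈ S₀,
        lev e ≤ k → ¬ (c₁ < e ∧ e < c₂)

/-- S1d. Fact (s3). -/
def STHRStmt : Prop :=
  ∀ (F : Finset (Finset ℕ)) (lev : ℕ → ℕ), Star F → Lev F lev →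
    ∀ (k : ℕ), ∀ S ∈ F, (∀ c ∈ S, k ≤ lev c) → ∀ S' ∈ F, (∀ c ∈ S', k ≤ lev c) → (∃ c ∈ S', lev c = k) →
      ∀ x ∈ S, x ∉ S' → ∀ y ∈ S, y ∉ S' → lev x = k + 1 → lev y = k + 1 → x < y →
        ∀ u ∈ S', lev u = k + 1 → ¬ (x < u ∧ u < y)

/-- Linear (*): `S \ S'` lies in one linear gap of `S'`. -/
def LStar {α : Type} [LinearOrder α] (𝒮 : Finset (Finset α)) : Prop :=
  ∀ S ∈ 𝒮, ∀ S' ∈ 𝒮, ∀ x ∈ S, x ∉ S' → ∀ y ∈ S, y ∉ S' → x < y → ∀ u ∈ S', ¬ (x < u ∧ u < y)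

/-- `v` is an L-point of `S`: the gap of `S` just left of `v` is an L-gap. -/
def LPt {α : Type} [LinearOrder α] (𝒮 : Finset (Finset α)) (S : Finset α) (v : α) : Prop :=
  v ∈ S ∧ ((∀ u ∈ S, v ≤ u) ∨
    ∃ S' ∈ 𝒮, (∃ z ∈ S', z ∉ S ∧ z < v ∧ ∀ u ∈ S, u < v → u < z) ∧ ∃ y ∈ S, y ∉ S' ∧ v ≤ y)

/-- `v` is an R-point of `S` (mirror image). -/
def RPt {α : Type} [LinearOrder α] (𝒮 : Finset (Finset α)) (S : Finset α) (v : α) : Prop :=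
  v ∈ S ∧ ((∀ u ∈ S, u ≤ v) ∨
    ∃ S' ∈ 𝒮, (∃ z ∈ S', z ∉ S ∧ v < z ∧ ∀ u ∈ S, v < u → z < u) ∧ ∃ y ∈ S, y ∉ S' ∧ y ≤ v)

/-- The result of the LF lemma, as a structure on functions `vL`, `vR`. -/
structure LF {α : Type} [LinearOrder α] (𝒮 : Finset (Finset α)) (vL vR : Finset α → α) : Prop where
  memL : ∀ S ∈ 𝒮, vL S ∈ S
  memR : ∀ S ∈ 𝒮, vR S ∈ S
  lr : ∀ S ∈ 𝒮, ∀ u ∈ S, u < vL S → u ≤ vR S
  /-- (lf1) -/
  lf1 : ∀ S ∈ 𝒮, ∀ S' ∈ 𝒮, ∀ c ∈ S, c ∉ S' → vL S ≤ c → vL S' ≤ c →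
    vL S' < vL S ∨ (vL S' = vL S ∧
      (S'.filter (fun u => vL S' ≤ u)).card < (S.filter (fun u => vL S ≤ u)).card)
  /-- (lf2) -/
  lf2 : ∀ S ∈ 𝒮, ∀ S' ∈ 𝒮, ∀ c ∈ S, c ∉ S' → c ≤ vR S → c ≤ vR S' →
    vR S < vR S' ∨ (vR S' = vR S ∧
      (S'.filter (fun u => u ≤ vR S')).card < (S.filter (fun u => u ≤ vR S)).card)
  /-- no L-gap to the right of `vL` -/
  ng : ∀ S ∈ 𝒮, ∀ S' ∈ 𝒮, ∀ d ∈ S', d ∉ S → vL S < d → ∀ y ∈ S, y ∉ S' → y < d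

/-- S2a. One side of the LF lemma. `v` = last L-point. -/
def LFHStmt : Prop :=
  ∀ (α : Type) [LinearOrder α] (𝒮 : Finset (Finset α)), LStar 𝒮 → (∀ S ∈ 𝒮, S.Nonempty) →
    ∀ v : Finset α → α, (∀ S ∈ 𝒮, LPt 𝒮 S (v S) ∧ ∀ u, LPt 𝒮 S u → u ≤ v S) →
      (∀ S ∈ 𝒮, ∀ S' ∈ 𝒮, ∀ c ∈ S, c ∉ S' → v S ≤ c → v S' ≤ c →
        v S' < v S ∨ (v S' = v S ∧
          (S'.filter (fun u => v S' ≤ u)).card < (S.filter (fun u => v S ≤ u)).card)) ∧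
      (∀ S ∈ 𝒮, ∀ S' ∈ 𝒮, ∀ d ∈ S', d ∉ S → v S < d → ∀ y ∈ S, y ∉ S' → y < d)

/-- S2b. The LF lemma. -/
def LFStmt : Prop :=
  ∀ (α : Type) [LinearOrder α] [Nonempty α] (𝒮 : Finset (Finset α)), LStar 𝒮 → (∀ S ∈ 𝒮, S.Nonempty) →
    ∃ vL vR : Finset α → α, LF 𝒮 vL vR

/-- `x` is the last element of `E` such that `E ∩ [v, x] ⊆ S`. -/
def XPt (E S : Finset ℕ) (v x : ℕ) : Prop :=
  x ∈ S ∧ v ≤ x ∧ (∀ e ∈ E, v ≤ e → e ≤ x → e ∈ S) ∧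
    ∀ x', v ≤ x' → x' ∈ E → (∀ e ∈ E, v ≤ e → e ≤ x' → e ∈ S) → x' ≤ x

/-- S2c. (lf3): positions `P S` of the members on the new line (all positions of the old line are
multiplied by `B`), and starting points `s c` of the visibility arcs. -/
def LFTStmt : Prop :=
  ∀ (𝒮 : Finset (Finset ℕ)) (vL vR : Finset ℕ → ℕ), LStar 𝒮 → LF 𝒮 vL vR →
    ∃ (x P : Finset ℕ → ℕ) (s : ℕ → ℕ) (B : ℕ), 0 < B ∧
      (∀ S ∈ 𝒮, XPt (𝒮.biUnion id) S (vL S) (x S)) ∧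
      (∀ S ∈ 𝒮, ∀ c, P S < c * B ↔ x S < c) ∧
      (∀ S ∈ 𝒮, ∀ c, P S ≤ c * B ↔ x S < c) ∧
      (∀ c, s c ≤ c * B) ∧
      (∀ S ∈ 𝒮, ∀ c ∈ 𝒮.biUnion id, x S < c → (c ∈ S ↔ s c ≤ P S)) ∧
      (∀ c ∈ 𝒮.biUnion id, ∀ c' ∈ 𝒮.biUnion id, c < c' → s c < s c' → s c' ≤ c * B → False)

/-! ## Orders from acyclic constraints -/

/-- S5a. An acyclic bipartite constraint system is solved by one comparison. -/
def ACYStmt : Prop :=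
  ∀ (I J : Type) [Finite I] [Finite J] (Dom M : I → J → Prop),
    (∀ x : I, ¬ Relation.TransGen (fun a a' => ∃ b, Dom a b ∧ M a b ∧ Dom a' b ∧ ¬ M a' b) x x) →
    ∃ (α : I → ℕ) (β : J → ℕ), ∀ a b, Dom a b → (M a b ↔ α a < β b)

/-- S5b. Acyclicity from depths. -/
def NSTStmt : Prop :=
  ∀ (I : Type) (R : I → I → Prop) (d : I → ℕ),
    (∀ a, ¬ R a a) →
    (∀ a₀ a₁ a₂, R a₀ a₁ → R a₁ a₂ → d a₀ < d a₁ → R a₀ a₂) →
    (∀ x, ¬ Relation.TransGen (fun a a' => d a = d a' ∧ R a a') x x) →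
    ∀ x, ¬ Relation.TransGen R x x

/-- Left end of the gap of `{e ∈ E : lev e < d}` that contains `c`. -/
def leftEnd (E : Finset ℕ) (lev : ℕ → ℕ) (d c : ℕ) : ℕ :=
  (E.filter (fun e => lev e < d ∧ e < c)).sup (fun e => e + 1)

/-- No segment conflict inside the class `Q`. -/
def NoConf (E : Finset ℕ) (lev r : ℕ → ℕ) (Q : ℕ → Prop) : Prop :=
  ∀ c ∈ E, ∀ c' ∈ E, Q c → Q c' → c < leftEnd E lev (lev c') c' →
    leftEnd E lev (lev c') c' ≤ r c → r c < c' → False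

/-- S5c. Segment colouring: 108 classes without segment conflict. -/
def SEGStmt : Prop :=
  ∀ (E : Finset ℕ) (lev r : ℕ → ℕ), (∀ c ∈ E, c ≤ r c) → NonCr E r →
    ∃ col : ℕ → Fin 108, ∀ i, NoConf E lev r (fun c => col c = i)

/-- The data of one part: rung sets `T a` of depth `d a` inside the window `[lo a, hi a]`. -/
structure Part {I : Type} (N : ℕ) (E : Finset ℕ) (lev : ℕ → ℕ) (T : I → Finset ℕ)
    (lo hi d : I → ℕ) : Prop where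
  mem : ∀ a, ∀ c ∈ T a, c ∈ E ∧ lev c = d a ∧ lo a ≤ c ∧ c ≤ hi a
  clean : ∀ a, ∀ e ∈ E, lev e < d a → lo a ≤ e → e ≤ hi a → False
  bnd : ∀ a, ∀ b b', b ≤ b' → b' < N → ¬ ((lo a ≤ b ∧ b ≤ hi a) ↔ (lo a ≤ b' ∧ b' ≤ hi a)) →
    ∃ e ∈ E, lev e ≤ d a ∧ b ≤ e ∧ e ≤ b'

/-- The constraint relation between sources for the rung class `Q`. -/
def CRel {I : Type} (N : ℕ) (r : ℕ → ℕ) (T : I → Finset ℕ) (lo hi : I → ℕ) (Q : ℕ → Prop)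
    (a a' : I) : Prop :=
  ∃ b < N, (lo a ≤ b ∧ b ≤ hi a) ∧ (∃ c ∈ T a, Q c ∧ c ≤ b ∧ b ≤ r c) ∧
    (lo a' ≤ b ∧ b ≤ hi a') ∧ ¬ ∃ c ∈ T a', Q c ∧ c ≤ b ∧ b ≤ r c

/-- S5d. Merging of the depths (ML). -/
def MLStmt : Prop :=
  ∀ (I : Type) [Finite I] (N : ℕ) (E : Finset ℕ) (lev r : ℕ → ℕ) (T : I → Finset ℕ)
    (lo hi d : I → ℕ) (Q : ℕ → Prop),
    NonCr E r → Part N E lev T lo hi d → NoConf E lev r Q →
    (∀ x, ¬ Relation.TransGen (fun a a' => d a = d a' ∧ CRel N r T lo hi Q a a') x x) →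
    ∃ (α : I → ℕ) (β : ℕ → ℕ), ∀ a, ∀ b < N, lo a ≤ b → b ≤ hi a →
      ((∃ c ∈ T a, Q c ∧ c ≤ b ∧ b ≤ r c) ↔ α a < β b)

/-- S4. (IV): transitivity of the switched order for a class without conflict. -/
def SWStmt : Prop :=
  ∀ (ι : Type) (s t r : ι → ℕ) (Q : ι → Prop),
    (∀ i, s i ≤ t i) → (∀ i, t i ≤ r i) →
    (∀ i j, t i < t j → s i < s j → s j ≤ t i → False) →
    (∀ i j, t i < t j → t j ≤ r i → r j ≤ r i) →
    (∀ i j, t i = t j → i = j) →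
    (∀ i j, Q i → Q j → t i < s j → s j ≤ r i → r i < t j → False) →
    let M : ℕ → ℕ → Prop := fun p q => ∃ i, Q i ∧ s i ≤ p ∧ p < t i ∧ t i ≤ q ∧ q ≤ r i
    let lt' : ℕ → ℕ → Prop := fun p q => (p < q ∧ ¬ M p q) ∨ (q < p ∧ M q p)
    ∀ p q w, lt' p q → lt' q w → lt' p w

/-! ## The four types -/

/-- S6. A part whose windows are decided class by class gives a bounded decision.
`PartDec n`: for every class `i` one comparison. -/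
def PartDec {I : Type} (N : ℕ) (r : ℕ → ℕ) (T : I → Finset ℕ) (lo hi : I → ℕ) (n : ℕ) : Prop :=
  ∃ (col : ℕ → Fin n) (α : Fin n → I → ℕ) (β : Fin n → ℕ → ℕ), ∀ i a, ∀ b < N, lo a ≤ b → b ≤ hi a →
    ((∃ c ∈ T a, col c = i ∧ c ≤ b ∧ b ≤ r c) ↔ α i a < β i b)

/-- S6a. Type (T1): `T a` = all rungs of depth `d a` in the window. -/
def TYPAStmt : Prop :=
  ∀ (I : Type) [Finite I] (N : ℕ) (E : Finset ℕ) (lev r : ℕ → ℕ) (T : I → Finset ℕ)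
    (lo hi d : I → ℕ), (∀ c ∈ E, c ≤ r c) → NonCr E r → Part N E lev T lo hi d →
    (∀ a, ∀ c ∈ E, lev c = d a → lo a ≤ c → c ≤ hi a → c ∈ T a) →
    PartDec N r T lo hi 108

/-- S6b. Type (T2): a potential decreases at equal depth. -/
def TYPBStmt : Prop :=
  ∀ (I : Type) [Finite I] (N : ℕ) (E : Finset ℕ) (lev r : ℕ → ℕ) (T : I → Finset ℕ)
    (lo hi d : I → ℕ) (k : I → ℕ ×ₗ ℕ), (∀ c ∈ E, c ≤ r c) → NonCr E r → Part N E lev T lo hi d →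
    (∀ a a', d a = d a' → ∀ c ∈ T a, c ∉ T a' → c ≤ hi a' → lo a' ≤ hi a' → k a < k a') →
    PartDec N r T lo hi 108

/-- S6c. Type (T3): visibility at each depth. -/
def TYPCStmt : Prop :=
  ∀ (I : Type) [Finite I] (N : ℕ) (E : Finset ℕ) (lev r : ℕ → ℕ) (T : I → Finset ℕ)
    (lo hi d : I → ℕ) (P : I → ℕ) (s : ℕ → ℕ) (B : ℕ → ℕ),
    (∀ c ∈ E, c ≤ r c) → NonCr E r → Part N E lev T lo hi d →
    (∀ a, lo a ≤ hi a → ∀ c, P a < c * B (d a) ↔ lo a ≤ c) →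
    (∀ a, lo a ≤ hi a → ∀ c, P a ≤ c * B (d a) ↔ lo a ≤ c) →
    (∀ n, 0 < B n) →
    (∀ c ∈ E, s c ≤ c * B (lev c)) →
    (∀ a, ∀ c ∈ E, lev c = d a → lo a ≤ c → c ≤ hi a → (c ∈ T a ↔ s c ≤ P a)) →
    (∀ c ∈ E, ∀ c' ∈ E, lev c = lev c' → c < c' → s c < s c' → s c' ≤ c * B (lev c) → False) →
    PartDec N r T lo hi (108 * 108)

/-- S7. Bounded decisions for one part. -/
def BD4Stmt : Prop :=
  ∀ (n : ℕ), ∃ (K : ℕ) (φ : (Fin K → Prop) → Prop), ∀ (I : Type) [Finite I] (N : ℕ) (r : ℕ → ℕ)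
    (T : I → Finset ℕ) (lo hi : I → ℕ),
    (∀ a, ∀ c ∈ T a, lo a ≤ c ∧ c ≤ hi a) → PartDec N r T lo hi n →
    ∃ (α : Fin K → I → ℕ) (β : Fin K → ℕ → ℕ), ∀ a, ∀ b < N,
      ((∃ c ∈ T a, c ≤ b ∧ b ≤ r c) ↔ φ (fun j => α j a < β j b))

/-- The depth of a member: its smallest level. -/
noncomputable def dep (lev : ℕ → ℕ) (S : Finset ℕ) : ℕ := sInf {n | ∃ c ∈ S, lev c = n}

/-- The lower half `S ∩ E_k` of a member, `k = dep S`. -/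
noncomputable def loP (lev : ℕ → ℕ) (S : Finset ℕ) : Finset ℕ := S.filter (fun c => lev c = dep lev S)

/-- The upper half `S ∩ E_{k+1}` of a member, `k = dep S`. -/
noncomputable def upP (lev : ℕ → ℕ) (S : Finset ℕ) : Finset ℕ :=
  S.filter (fun c => lev c = dep lev S + 1)

/-- The linear family of depth `n` (upper halves of members of depth `n`). -/
noncomputable def upF (F : Finset (Finset ℕ)) (lev : ℕ → ℕ) (n : ℕ) : Finset (Finset ℕ) :=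
  ((F.filter (fun S => dep lev S = n)).image (upP lev)).filter (fun S => S.Nonempty)

/-- S8a. The linear families. -/
def UPFStmt : Prop :=
  ∀ (F : Finset (Finset ℕ)) (lev : ℕ → ℕ), (∀ S ∈ F, S.Nonempty) → Star F → Lev F lev →
    (∀ S ∈ F, S = loP lev S ∪ upP lev S ∧ (loP lev S).Nonempty) ∧
    ∀ n, LStar (upF F lev n) ∧ (∀ S ∈ upF F lev n, S.Nonempty) ∧
      (upF F lev n).biUnion id = (F.biUnion id).filter (fun c => lev c = n + 1)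

/-- Hypotheses common to the four parts. -/
structure Base (F : Finset (Finset ℕ)) (lev r : ℕ → ℕ) (N : ℕ) : Prop where
  ne : ∀ S ∈ F, S.Nonempty
  star : Star F
  lev : Lev F lev
  le : ∀ c ∈ F.biUnion id, c ≤ r c
  nc : NonCr (F.biUnion id) r
  N : ∀ c ∈ F.biUnion id, c < N

/-- Conclusion for one part: there are windows for which it is decided. -/
def Good (F : Finset (Finset ℕ)) (r : ℕ → ℕ) (N : ℕ) (T : {S // S ∈ F} → Finset ℕ) (n : ℕ) : Prop :=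
  ∃ lo hi : {S // S ∈ F} → ℕ, (∀ a, ∀ c ∈ T a, lo a ≤ c ∧ c ≤ hi a) ∧ PartDec N r T lo hi n

/-- S8b. Part 0: lower halves. -/
def PZStmt : Prop :=
  ∀ (F : Finset (Finset ℕ)) (lev r : ℕ → ℕ) (N : ℕ), Base F lev r N →
    Good F r N (fun S => loP lev S.1) 108

/-- S8c. Part 1: middle parts `E_{k+1} ∩ [vL, x]` of the upper halves. -/
def PMStmt : Prop :=
  ∀ (F : Finset (Finset ℕ)) (lev r : ℕ → ℕ) (N : ℕ), Base F lev r N →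
    ∀ (vL x : ℕ → Finset ℕ → ℕ),
      (∀ n, ∀ S ∈ upF F lev n, vL n S ∈ S ∧ XPt ((upF F lev n).biUnion id) S (vL n S) (x n S)) →
      Good F r N (fun S => (upP lev S.1).filter (fun c => vL (dep lev S.1) (upP lev S.1) ≤ c ∧
        c ≤ x (dep lev S.1) (upP lev S.1))) 108

/-- S8d. Part 2: left parts `(-∞, vR]` of the upper halves. -/
def PLStmt : Prop :=
  ∀ (F : Finset (Finset ℕ)) (lev r : ℕ → ℕ) (N : ℕ), Base F lev r N →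
    ∀ (vL vR : ℕ → Finset ℕ → ℕ), (∀ n, LF (upF F lev n) (vL n) (vR n)) →
      Good F r N (fun S => (upP lev S.1).filter (fun c => c ≤ vR (dep lev S.1) (upP lev S.1))) 108

/-- S8e. Part 3: right parts `(x, ∞)` of the upper halves. -/
def PRStmt : Prop :=
  ∀ (F : Finset (Finset ℕ)) (lev r : ℕ → ℕ) (N : ℕ), Base F lev r N →
    ∀ (x P : ℕ → Finset ℕ → ℕ) (s : ℕ → ℕ → ℕ) (B : ℕ → ℕ),
      (∀ n, 0 < B n) →
      (∀ n, ∀ S ∈ upF F lev n, x n S ∈ S) →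
      (∀ n, ∀ S ∈ upF F lev n, ∀ c, P n S < c * B n ↔ x n S < c) →
      (∀ n, ∀ S ∈ upF F lev n, ∀ c, P n S ≤ c * B n ↔ x n S < c) →
      (∀ n c, s n c ≤ c * B n) →
      (∀ n, ∀ S ∈ upF F lev n, ∀ c ∈ (upF F lev n).biUnion id, x n S < c → (c ∈ S ↔ s n c ≤ P n S)) →
      (∀ n, ∀ c ∈ (upF F lev n).biUnion id, ∀ c' ∈ (upF F lev n).biUnion id,
        c < c' → s n c < s n c' → s n c' ≤ c * B n → False) →
      Good F r N (fun S => (upP lev S.1).filter (fun c => x (dep lev S.1) (upP lev S.1) < c))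
        (108 * 108)

/-- S9. All parts together. -/
def PARTSStmt : Prop :=
  ∀ (F : Finset (Finset ℕ)) (r : ℕ → ℕ) (N : ℕ), F.Nonempty → (∀ S ∈ F, S.Nonempty) → Star F →
    (∀ c ∈ F.biUnion id, c ≤ r c) → NonCr (F.biUnion id) r → (∀ c ∈ F.biUnion id, c < N) →
    ∃ (T : Fin 4 → {S // S ∈ F} → Finset ℕ) (lo hi : Fin 4 → {S // S ∈ F} → ℕ),
      (∀ S : {S // S ∈ F}, ∀ c, c ∈ S.1 ↔ ∃ p, c ∈ T p S) ∧
      (∀ p a, ∀ c ∈ T p a, lo p a ≤ c ∧ c ≤ hi p a) ∧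
      ∀ p, PartDec N r (T p) (lo p) (hi p) (108 * 108)

end Pool.BD
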