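import Pool.Agent.H13.BD.ZU
import Pool.Agent.H13.BD.ZE
import Pool.Agent.H13.BD.ZL
import Pool.Agent.H13.BD.Z1
import Pool.Agent.H13.BD.Z3
import Pool.Agent.H13.BD.Z4
import Pool.Agent.H17.BD.ZS
import Pool.Agent.H17.BD.Z2
import Pool.Agent.H42.BD.ZF
import Pool.Agent.H42.BD.ZR
import Pool.Agent.H42.BD.ZLR
import Pool.Agent.H42.BD.ZLD

/-!
# Block Z assembled
-/

set_option autoImplicit false

namespace Pool.BD

/-- from the instance theorem to S11417 -/
theorem z4All {Pl : ∀ V : Type, SimpleGraph V → Prop} (hI : INSP Pl)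
    (hPl : ∀ (V : Type) [Finite V] (G : SimpleGraph V), Pool.WG.Fr G → Pl V G) : Z4Stmt :=
  z4 (z3 (z1 zu zf zr hI hPl) (z2 zu zs zf zr hI hPl) ze zx) (zl zlr zld)

end Pool.BD
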