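import Pool.Agent.H56.BD.StmtsT
import Pool.Agent.H42.WG.Abs

/-!
# Block Z: from the instance theorem `INSP Pl` to the frozen statement S11417
Layers of a finite poset, contraction of the lower layers, merging of the layers.
-/

set_option autoImplicit false

namespace Pool.BD

open Relation

universe u v

/-- the cover graph -/
def cov (P : Type) [PartialOrder P] : SimpleGraph P := SimpleGraph.fromRel (fun x y : P => x ⋖ y)

/-! ## Calculus -/

/-- ZU. Disjoint unions of members of a bounded family are bounded. -/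
def ZUStmt : Prop :=
  ∀ {ι : Type 1} {κ : Type 1} {X : ι → Type} {Dom Rel : ∀ i, X i → X i → Prop},
    Bd X Dom Rel → ∀ (Y : κ → Type) (J : κ → Type) (blk : ∀ i, Y i → J i) (f : ∀ i, J i → ι)
      (emb : ∀ (i : κ) (j : J i), Y i → X (f i j)) (Dom' Rel' : ∀ i, Y i → Y i → Prop),
      (∀ i, Finite (Y i)) →
      (∀ i j, Function.Injective (emb i j)) →
      (∀ i x y, x ≠ y → Dom' i x y → blk i x = blk i y ∧
        Dom (f i (blk i x)) (emb i (blk i x) x) (emb i (blk i x) y) ∧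
        (Rel' i x y ↔ Rel (f i (blk i x)) (emb i (blk i x) x) (emb i (blk i x) y))) →
      Bd Y Dom' Rel'

/-- ZE. Equality of blocks is a bounded relation. -/
def ZEStmt : Prop :=
  ∀ {κ : Type 1} (Y : κ → Type) (J : κ → Type) (blk : ∀ i, Y i → J i) (Dom : ∀ i, Y i → Y i → Prop),
    (∀ i, Finite (Y i)) → Bd Y Dom (fun i x y => blk i x = blk i y)

/-- ZX. A relation bounded on a domain is, on this domain, equal to a relation bounded everywhere. -/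
def ZXStmt : Prop :=
  ∀ {κ : Type 1} (Y : κ → Type) (Dom Rel : ∀ i, Y i → Y i → Prop), Bd Y Dom Rel →
    ∃ Rel' : ∀ i, Y i → Y i → Prop, Bd Y (fun _ _ _ => True) Rel' ∧
      ∀ i x y, x ≠ y → Dom i x y → (Rel i x y ↔ Rel' i x y)

/-- ZS. Exchange of the two arguments. -/
def ZSStmt : Prop :=
  ∀ {κ : Type 1} (Y : κ → Type) (Dom Rel : ∀ i, Y i → Y i → Prop), Bd Y Dom Rel →
    Bd Y (fun i x y => Dom i y x) (fun i x y => Rel i y x)

/-! ## One layer -/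

/-- The contracted graph: `none` = the contraction of `D`, `some x` for `x ∈ Z ∪ A`; edges of `G`
inside `Z ∪ A`, and `none - some z` for `z ∈ Z` adjacent to `D`. -/
def cgr {P : Type} (G : SimpleGraph P) (D Z A : Set P) : SimpleGraph (Option P) where
  Adj u v := (∃ x ∈ Z ∪ A, ∃ y ∈ Z ∪ A, u = some x ∧ v = some y ∧ G.Adj x y) ∨
    (∃ z ∈ Z, (∃ d ∈ D, G.Adj d z) ∧ ((u = none ∧ v = some z) ∨ (u = some z ∧ v = none)))
  symm := ⟨fun u v h => by
    rcases h with ⟨x, hx, y, hy, h1, h2, h3⟩ | ⟨z, hz, hd, h | h⟩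
    · exact Or.inl ⟨y, hy, x, hx, h2, h1, h3.symm⟩
    · exact Or.inr ⟨z, hz, hd, Or.inr ⟨h.2, h.1⟩⟩
    · exact Or.inr ⟨z, hz, hd, Or.inl ⟨h.2, h.1⟩⟩⟩
  loopless := ⟨fun u h => by
    rcases h with ⟨x, hx, y, hy, h1, h2, h3⟩ | ⟨z, hz, hd, h | h⟩
    · rw [h1] at h2; rw [Option.some.inj h2] at h3; exact h3.ne rfl
    · rw [h.1] at h; exact absurd h.2 (by simp)
    · rw [h.1] at h; exact absurd h.2 (by simp)⟩

/-- ZF. The contracted graph is a minor. -/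
def ZFStmt : Prop :=
  ∀ (P : Type) (G : SimpleGraph P) (D Z A : Set P), Pool.WG.Fr G → (G.induce D).Connected →
    (∀ x ∈ D, x ∉ Z ∧ x ∉ A) → Pool.WG.Fr (cgr G D Z A)

/-- ZR. Reachability in the contracted graph is the order. -/
def ZRStmt : Prop :=
  ∀ (P : Type) [Finite P] [PartialOrder P] (D Z A : Set P),
    (∀ x ∈ D, x ∉ Z ∧ x ∉ A) →
    (∀ z ∈ Z, ∃ d ∈ D, d ≤ z ∧ ∀ c, d ≤ c → c ≤ z → c ∈ D ∪ Z) →
    (∀ x ∈ Z ∪ A, ∀ y ∈ Z, ∀ c, x ≤ c → c ≤ y → c ∈ Z ∪ A) →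
    ∃ rk : Option P → ℕ, Function.Injective rk ∧ (∀ v, v ≠ none → rk none < rk v) ∧
      (∀ y ∈ Z, Re (cgr (cov P) D Z A) rk none (some y)) ∧
      ∀ x ∈ Z ∪ A, ∀ y ∈ Z, (Re (cgr (cov P) D Z A) rk (some x) (some y) ↔ x ≤ y)

/-! ## Layering -/

/-- `comp x` = root of the component of `x` (a minimal element), `ly x` = number of the layer -/
structure Lay (P : Type) [PartialOrder P] (comp : P → P) (ly : P → ℕ) : Prop where
  comp_le : ∀ a b, a ≤ b → comp a = comp b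
  ly_lt : ∀ a b, a < b → ly a = ly b ∨
    (ly a % 2 = 0 ∧ ly b % 2 = 1 ∧ (ly a + 1 = ly b ∨ ly b + 1 = ly a))
  /-- layer 0 is the root -/
  zero : ∀ a, ly a = 0 ↔ comp a = a
  /-- layer 1 is above the root -/
  one : ∀ a, ly a = 1 → comp a < a
  conn : ∀ (r : P) (i : ℕ), 0 < i → comp r = r →
    ((cov P).induce {z | comp z = r ∧ ly z < i}).Connected
  up : ∀ a, ly a % 2 = 1 → ∃ d, ly d < ly a ∧ d ≤ a ∧ ∀ c, d ≤ c → c ≤ a → ly c ≤ ly a
  down : ∀ a, ly a % 2 = 0 → 0 < ly a →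
    ∃ d, ly d < ly a ∧ a ≤ d ∧ ∀ c, a ≤ c → c ≤ d → ly c ≤ ly a
  idem : ∀ a, comp (comp a) = comp a

/-- ZLR. Roots of the components. -/
def ZLRStmt : Prop :=
  ∀ (P : Type) [Finite P] [PartialOrder P], ∃ comp : P → P, (∀ a b, a ≤ b → comp a = comp b) ∧
    (∀ a, comp (comp a) = comp a) ∧ (∀ a b, b < comp a → False) ∧
    ∀ a, ReflTransGen (fun x y => x ≤ y ∨ y ≤ x) (comp a) a

/-- layers around a minimal element `r`: `lev x` is the number of the layer -/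
def ZLDStmt : Prop :=
  ∀ (P : Type) [Finite P] [PartialOrder P] (r : P), (∀ b, b < r → False) →
    ∃ lev : P → ℕ, let C : Set P := {x | ReflTransGen (fun x y => x ≤ y ∨ y ≤ x) r x}
      (∀ a ∈ C, ∀ b, a < b → lev a = lev b ∨
        (lev a % 2 = 0 ∧ lev b % 2 = 1 ∧ (lev a + 1 = lev b ∨ lev b + 1 = lev a))) ∧
      (∀ a ∈ C, lev a = 0 ↔ a = r) ∧ (∀ a ∈ C, lev a = 1 → r < a) ∧
      (∀ i, 0 < i → ((cov P).induce {z | z ∈ C ∧ lev z < i}).Connected) ∧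
      (∀ a ∈ C, lev a % 2 = 1 → ∃ d, lev d < lev a ∧ d ≤ a ∧ ∀ c, d ≤ c → c ≤ a → lev c ≤ lev a) ∧
      (∀ a ∈ C, lev a % 2 = 0 → 0 < lev a →
        ∃ d, lev d < lev a ∧ a ≤ d ∧ ∀ c, a ≤ c → c ≤ d → lev c ≤ lev a)

/-- ZL. Existence of layerings (from `ZLRStmt`, `ZLDStmt`). -/
def ZLStmt : Prop :=
  ∀ (P : Type) [Finite P] [PartialOrder P], ∃ (comp : P → P) (ly : P → ℕ), Lay P comp ly

/-! ## Assembly -/

/-- posets with a cover graph without `K5`, `K33` minors -/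
structure PoI : Type 1 where
  P : Type
  fin : Finite P
  ord : PartialOrder P
  fr : Pool.WG.Fr (@cov P ord)

/-- a poset with a layering -/
structure LaI : Type 1 where
  P : Type
  fin : Finite P
  ord : PartialOrder P
  fr : Pool.WG.Fr (@cov P ord)
  comp : P → P
  ly : P → ℕ
  lay : @Lay P ord comp ly

/-- Z1. Odd layers (from `ZUStmt`, `ZFStmt`, `ZRStmt`, `INSP Pl`). -/
def Z1Stmt : Prop :=
  Bd (ι := LaI) (fun i => i.P)
    (fun i a b => i.comp a = i.comp b ∧ (i.ly a + 1) / 2 = (i.ly b + 1) / 2 ∧ i.ly b % 2 = 1)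
    (fun i a b => i.ord.lt a b)

/-- Z2. Even layers (from `ZUStmt`, `ZSStmt`, `ZFStmt`, `ZRStmt`, `INSP Pl`). -/
def Z2Stmt : Prop :=
  Bd (ι := LaI) (fun i => i.P)
    (fun i a b => i.comp a = i.comp b ∧ i.ly a / 2 = i.ly b / 2 ∧ i.ly a % 2 = 0 ∧ 0 < i.ly a)
    (fun i a b => i.ord.lt a b)

/-- Z3. All pairs (from `Z1Stmt`, `Z2Stmt`, `ZEStmt`, `ZXStmt`). -/
def Z3Stmt : Prop :=
  Bd (ι := LaI) (fun i => i.P) (fun _ _ _ => True) (fun i a b => i.ord.lt a b)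

/-- Z4. The frozen statement S11417. -/
def Z4Stmt : Prop :=
  ∃ d : ℕ, ∀ (α : Type) [Fintype α] [PartialOrder α],
    (¬ ∃ f : Fin 5 → Set α,
        (∀ w, (f w).Nonempty) ∧
        (∀ w, ((SimpleGraph.fromRel (fun x y : α => x ⋖ y)).induce (f w)).Connected) ∧
        (∀ v w, v ≠ w → Disjoint (f v) (f w)) ∧
        (∀ v w, v ≠ w → ∃ x ∈ f v, ∃ y ∈ f w,
            (SimpleGraph.fromRel (fun x y : α => x ⋖ y)).Adj x y)) →
    (¬ ∃ f : Fin 3 ⊕ Fin 3 → Set α,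
        (∀ w, (f w).Nonempty) ∧
        (∀ w, ((SimpleGraph.fromRel (fun x y : α => x ⋖ y)).induce (f w)).Connected) ∧
        (∀ v w, v ≠ w → Disjoint (f v) (f w)) ∧
        (∀ i j : Fin 3, ∃ x ∈ f (Sum.inl i), ∃ y ∈ f (Sum.inr j),
            (SimpleGraph.fromRel (fun x y : α => x ⋖ y)).Adj x y)) →
    ∃ (L : Fin d → α → ℕ) (φ : (Fin d → Bool) → Bool),
      (∀ i, Function.Injective (L i)) ∧
      ∀ x y : α, x ≠ y →
        (x < y ↔ φ (fun i => decide (L i x < L i y)) = true)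

end Pool.BD
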